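import Pool.Agent.V11327.SX1
import Pool.Agent.V11327.SX2

open MeasureTheory ProbabilityTheory Filter Set Topology
open scoped ENNReal

namespace Pool.Agent.Results.MP_cbf971_pr.LimitProbabilityNotMonotone

open Pool.Agent.V11327.SX

universe u

/-- `x` is a stable fixed point of `lam : [0,∞) → [0,∞)`. -/
def Stable (lam : ℝ → ℝ) (x : ℝ) : Prop :=
  0 ≤ x ∧ lam x = x ∧ ∃ δ > 0, (∀ y, 0 ≤ y → x - δ < y → y < x → y < lam y) ∧
    (∀ y, x < y → y < x + δ → lam y < y)

/-- The probability that `N_t < ∞` for all `t` and `N_t / t → x`, for the process with intensity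
`lam ((N_{t-} + γ) / (t + 1))` built from the clocks `E 0, E 1, ...`. -/
noncomputable def limProb {Ω : Type u} [MeasurableSpace Ω] (P : Measure Ω) (E : ℕ → Ω → ℝ)
    (lam : ℝ → ℝ) (x γ : ℝ) : ℝ≥0∞ :=
  P {ω | Conv lam γ (fun n => E n ω) x}

theorem L_stable (x : ℝ) : Stable L x ↔ x = 1 / 2 ∨ x = 4 := by
  constructor
  · rintro ⟨-, h1, δ, hδ, h2, -⟩
    rcases L_fixed h1 with h | h | h
    · exact Or.inl h
    · exfalso
      subst h
      set y : ℝ := max (68 / 39 - δ / 2) (1742 / 1000) with hy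
      have hy1 : 68 / 39 - δ < y := lt_of_lt_of_le (by linarith) (le_max_left _ _)
      have hy2 : y < 68 / 39 := max_lt (by linarith) (by norm_num)
      have hy3 : 1742 / 1000 ≤ y := le_max_right _ _
      have h3 := h2 y (by linarith) hy1 hy2
      rw [L_ramp (by linarith) (by linarith)] at h3
      linarith
    · exact Or.inr h
  · rintro (h | h)
    · subst h
      refine ⟨by norm_num, by rw [L_low (by norm_num)]; norm_num, 1 / 2, by norm_num, ?_, ?_⟩
      · intro y _ _ h3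
        rw [L_low (by linarith)]
        linarith
      · intro y h1 h2
        rw [L_low (by linarith)]
        linarith
    · subst h
      refine ⟨by norm_num, by rw [L_top (by norm_num)], 1, by norm_num, ?_, ?_⟩
      · intro y _ h2 h3
        rw [L_top (by linarith)]
        linarith
      · intro y h1 _
        rw [L_top (by linarith)]
        linarith

theorem result :
    ∃ lam : ℝ → ℝ, Continuous lam ∧ (∀ z, 0 ≤ lam z) ∧ {x : ℝ | 0 ≤ x ∧ lam x = x}.Finite ∧
      ∃ x₁ x₂ : ℝ, x₁ < x₂ ∧ (∀ x, Stable lam x ↔ x = x₁ ∨ x = x₂) ∧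
        ∀ (Ω : Type u) [MeasurableSpace Ω] (P : Measure Ω) [IsProbabilityMeasure P]
          (E : ℕ → Ω → ℝ), (∀ n, Measurable (E n)) → iIndepFun E P →
          (∀ n, P.map (E n) = expMeasure 1) →
          (0 < limProb P E lam x₂ (9 / 10) ∧ limProb P E lam x₂ (8 / 5) = 0 ∧
            0 < limProb P E lam x₂ 10) ∧
          ¬ MonotoneOn (limProb P E lam x₂) (Ici 0) ∧
          ¬ AntitoneOn (limProb P E lam x₂) (Ici 0) := by
  refine ⟨L, L_cont, L_nonneg, ?_, 1 / 2, 4, by norm_num, L_stable, ?_⟩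
  · refine Set.Finite.subset (Set.toFinite ({1 / 2, 68 / 39, 4} : Set ℝ)) ?_
    rintro x ⟨-, hx⟩
    rcases L_fixed hx with h | h | h <;> simp [h]
  intro Ω _ P _ E hm hind hlaw
  have hpos := law_pos hm hlaw
  have hslln := law_slln hm hind hlaw
  have hgood := good_pos hm hind hlaw
  have key : ∀ γ : ℝ, (∀ e : ℕ → ℝ, (∀ n, 0 < e n) → e 0 ≤ 1 / 400 →
      (∀ n : ℕ, 1 ≤ n → ∑ k ∈ Finset.range (n + 1), e k ≤ 20 / 9 * n - 21 / 10) →
      Tendsto (fun n : ℕ => (∑ k ∈ Finset.range n, e k) / n) atTop (𝓝 1) → Conv L γ e 4) →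
      0 < limProb P E L 4 γ := by
    intro γ hγ
    refine hgood.trans_le (measure_mono_ae ?_)
    filter_upwards [hpos, hslln] with ω h1 h2 h3
    exact hγ (fun n => E n ω) h1 h3.1 h3.2 h2
  have h1 : 0 < limProb P E L 4 (9 / 10) := key _ conv_low
  have h3 : 0 < limProb P E L 4 10 := key _ conv_ten
  have h2 : limProb P E L 4 (8 / 5) = 0 := by
    show P {ω | Conv L (8 / 5) (fun n => E n ω) 4} = 0
    rw [measure_eq_zero_iff_ae_notMem]
    filter_upwards [hpos] with ω hω
    exact not_conv _ hω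
  refine ⟨⟨h1, h2, h3⟩, ?_, ?_⟩
  · intro hmono
    have := hmono (show (9 / 10 : ℝ) ∈ Ici (0:ℝ) by rw [mem_Ici]; norm_num)
      (show (8 / 5 : ℝ) ∈ Ici (0:ℝ) by rw [mem_Ici]; norm_num) (by norm_num)
    rw [h2] at this
    exact absurd h1 (not_lt.2 this)
  · intro hanti
    have := hanti (show (8 / 5 : ℝ) ∈ Ici (0:ℝ) by rw [mem_Ici]; norm_num)
      (show (10 : ℝ) ∈ Ici (0:ℝ) by rw [mem_Ici]; norm_num) (by norm_num)
    rw [h2] at this
    exact absurd h3 (not_lt.2 this)

end Pool.Agent.Results.MP_cbf971_pr.LimitProbabilityNotMonotone
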